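import Mathlib
import Pool.Agent.Helper882.Dirac.NonMember

set_option autoImplicit false

/-!
# A Radon probability measure which is `Ba(C_p(K))`-measurable but does not belong to the weak*
sequential closure of the finitely supported probability measures
-/

namespace Pool.Agent.Results.MP_44758c_an.MeasurableNotSequential

open MeasureTheory Filter Topology Set
open Pool.Agent.Helper882.Dirac

section defs

variable (K : Type) [TopologicalSpace K]

/-- The topology of pointwise convergence on `C(K)`. -/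
@[reducible] def pointwiseTop : TopologicalSpace C(K, ℝ) :=
  TopologicalSpace.induced (fun (f : C(K, ℝ)) (x : K) => f x) inferInstance

/-- The Baire `σ`-algebra of `C_p(K)`: generated by the real functions on `C(K)` which are
continuous for the topology of pointwise convergence. -/
@[reducible] def BaCp : MeasurableSpace C(K, ℝ) :=
  ⨆ (g : C(K, ℝ) → ℝ) (_ : @Continuous C(K, ℝ) ℝ (pointwiseTop K) _ g),
    MeasurableSpace.comap g (borel ℝ)

variable [CompactSpace K]

/-- The Dirac measures, as functionals on `C(K)`. -/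
def Diracs : Set (C(K, ℝ) →L[ℝ] ℝ) := {φ | ∃ x : K, ∀ f : C(K, ℝ), φ f = f x}

variable {K}

/-- The smallest weak*-sequentially closed subset of the dual of `C(K)` containing `A`. -/
def Seq (A : Set (C(K, ℝ) →L[ℝ] ℝ)) : Set (C(K, ℝ) →L[ℝ] ℝ) :=
  ⋂₀ {S | A ⊆ S ∧ ∀ (u : ℕ → C(K, ℝ) →L[ℝ] ℝ) (φ : C(K, ℝ) →L[ℝ] ℝ), (∀ n, u n ∈ S) →
    (∀ f : C(K, ℝ), Tendsto (fun n => u n f) atTop (𝓝 (φ f))) → φ ∈ S}

end defs

/-- The Riesz representation theorem for normalized positive functionals. -/
theorem exists_measure_pos {Y : Type} [TopologicalSpace Y] [CompactSpace Y] [T2Space Y]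
    [MeasurableSpace Y] [BorelSpace Y] (Λ : C(Y, ℝ) →L[ℝ] ℝ)
    (hpos : ∀ h : C(Y, ℝ), 0 ≤ h → 0 ≤ Λ h) (hone : Λ 1 = 1) :
    ∃ μ : Measure Y, IsProbabilityMeasure μ ∧ μ.Regular ∧
      ∀ h : C(Y, ℝ), Λ h = ∫ y, h y ∂μ := by
  let Λc : CompactlySupportedContinuousMap Y ℝ →ₗ[ℝ] ℝ :=
    { toFun := fun f => Λ f.toContinuousMap
      map_add' := fun f g => map_add Λ f.toContinuousMap g.toContinuousMap
      map_smul' := fun c f => map_smul Λ c f.toContinuousMap }
  let Λp : CompactlySupportedContinuousMap Y ℝ →ₚ[ℝ] ℝ :=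
    PositiveLinearMap.mk₀ Λc (fun f hf => hpos _ (fun y => hf y))
  have key : ∀ h : C(Y, ℝ), ∫ y, h y ∂(RealRMK.rieszMeasure Λp) = Λ h := fun h =>
    RealRMK.integral_rieszMeasure Λp ⟨h, HasCompactSupport.of_compactSpace _⟩
  refine ⟨RealRMK.rieszMeasure Λp, ?_, inferInstance, fun h => (key h).symm⟩
  have h1 := key 1
  rw [hone] at h1
  simp only [ContinuousMap.one_apply, integral_const, smul_eq_mul, mul_one] at h1
  constructor
  have h2 : (RealRMK.rieszMeasure Λp).real univ = 1 := h1
  rw [measureReal_def] at h2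
  rw [← ENNReal.ofReal_toReal (measure_ne_top (RealRMK.rieszMeasure Λp) univ), h2]
  simp

/-- The evaluation `σ`-algebra is contained in the Baire `σ`-algebra of `C_p(K)`. -/
theorem evSigma_le (Y : Type) [TopologicalSpace Y] : evSigma Y ≤ BaCp Y := by
  refine iSup_le fun x => ?_
  have hx : @Continuous C(Y, ℝ) ℝ (pointwiseTop Y) _ (fun f : C(Y, ℝ) => f x) := by
    unfold pointwiseTop
    exact @Continuous.comp _ _ _ (_) _ _ _ _ (continuous_apply x) continuous_induced_dom
  exact le_iSup₂_of_le (fun f : C(Y, ℝ) => f x) hx le_rfl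

/-- There are a compact Hausdorff space `K` and a Radon probability measure `μ` on `K` such that
`f ↦ ∫ f dμ` is `Ba(C_p(K))`-measurable on `C(K)`, but does not belong to the smallest
weak*-sequentially closed set containing the finitely supported probability measures. -/
theorem result : ∃ (K : Type) (_ : TopologicalSpace K) (_ : CompactSpace K) (_ : T2Space K)
    (_ : MeasurableSpace K) (_ : BorelSpace K) (μ : Measure K) (φ : C(K, ℝ) →L[ℝ] ℝ),
    IsProbabilityMeasure μ ∧ μ.Regular ∧ (∀ f : C(K, ℝ), φ f = ∫ x, f x ∂μ) ∧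
    @Measurable C(K, ℝ) ℝ (BaCp K) (borel ℝ) φ ∧
    φ ∉ Seq (convexHull ℝ (Diracs K)) := by
  obtain ⟨φ, hpos, hone, hQ⟩ := exists_not_QQ
  letI : MeasurableSpace KK := borel KK
  haveI : BorelSpace KK := ⟨rfl⟩
  obtain ⟨μ, hμ, hreg, hrep⟩ := exists_measure_pos φ hpos hone
  refine ⟨KK, inferInstance, inferInstance, inferInstance, borel KK, ⟨rfl⟩, μ, φ, hμ, hreg, hrep,
    ?_, ?_⟩
  · exact Measurable.of_comap_le ((KK_measurable φ).comap_le.trans (evSigma_le KK))
  · intro hmem
    refine hQ (hmem {φ | QQ φ} ⟨?_, fun u φ hu hlim => QQ_closed u φ hu hlim⟩)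
    apply convexHull_min _ QQ_convex
    rintro ψ ⟨x, hx⟩
    exact QQ_dirac x ψ hx

end Pool.Agent.Results.MP_44758c_an.MeasurableNotSequential
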